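import Mathlib
import Pool.Agent.T6.H51.RM.F

/-!
# Weak type maximal inequalities of every order

For every symmetric probability measure `μ` on the integers which is non-increasing on the natural
numbers, and for every `m`, the maximal function
`sup_{n ≥ 1} n ^ m |μ^{*n} * (δ₀ - μ)^{*m} * f|` is of weak type `(1, 1)`, with a constant that
depends on `m` only.  This answers Q2 of problem MP_e7950b_an.
-/

set_option autoImplicit false

open scoped ENNReal

namespace Pool.Agent.Results.MP_e7950b_an.WeakTypeMaximal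

/-- `(ν * g)(k) = ∑_j ν(j) g(k - j)` for a real kernel `ν` and a complex function `g`. -/
noncomputable def conv (ν : ℤ → ℝ) (g : ℤ → ℂ) (k : ℤ) : ℂ := ∑' j : ℤ, (ν j : ℂ) * g (k - j)

/-- The convolution `(ν * ρ)(k) = ∑_j ν(j) ρ(k - j)` of two real kernels. -/
noncomputable def convR (ν ρ : ℤ → ℝ) (k : ℤ) : ℝ := ∑' j : ℤ, ν j * ρ (k - j)

/-- The unit mass `δ₀` at the origin. -/
def unitMass : ℤ → ℝ := fun k => if k = 0 then 1 else 0

/-- The convolution powers `ν^{*n}`, with `ν^{*0} = δ₀`. -/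
noncomputable def convPow (ν : ℤ → ℝ) : ℕ → ℤ → ℝ
  | 0 => unitMass
  | n + 1 => convR ν (convPow ν n)

/-- The maximal function `sup_{n ≥ 1} n ^ m |μ^{*n} * (δ₀ - μ)^{*m} * f (k)|` of order `m`. -/
noncomputable def maximalFn (μ : ℤ → ℝ) (m : ℕ) (f : ℤ → ℂ) (k : ℤ) : ℝ≥0∞ :=
  ⨆ (n : ℕ) (_ : 1 ≤ n), ENNReal.ofReal ((n : ℝ) ^ m *
    ‖conv (convPow μ n) (conv (convPow (fun j => unitMass j - μ j) m) f) k‖)

lemma conv_eq (ν : ℤ → ℝ) (g : ℤ → ℂ) : conv ν g = Pool.Agent.T6.H51.RM.conv ν g := rfl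

lemma unitMass_eq : unitMass = Pool.Agent.T6.H51.RM.del := rfl

lemma convPow_eq (ν : ℤ → ℝ) (n : ℕ) : convPow ν n = Pool.Agent.T6.H51.RM.convPow ν n := by
  induction n with
  | zero => rfl
  | succ n ih =>
    change convR ν (convPow ν n) = Pool.Agent.T6.H51.RM.cvr ν (Pool.Agent.T6.H51.RM.convPow ν n)
    rw [ih]
    rfl

/-- **Weak type maximal inequality of every order `m`**: for every `m` there is a constant `C`
such that for every symmetric probability measure `μ` on `ℤ` which is non-increasing on `ℕ`, every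
absolutely summable `f : ℤ → ℂ` and every `lam > 0`, the set of all `k` with
`sup_{n ≥ 1} n ^ m |μ^{*n} * (δ₀ - μ)^{*m} * f (k)| ≥ lam` is finite and `lam` times its
cardinality is at most `C ‖f‖₁`. -/
theorem result (m : ℕ) : ∃ C : ℝ, 0 < C ∧ ∀ μ : ℤ → ℝ, (∀ k, 0 ≤ μ k) → HasSum μ 1 →
    (∀ k, μ (-k) = μ k) → (∀ n : ℕ, μ ((n : ℤ) + 1) ≤ μ (n : ℤ)) →
    ∀ f : ℤ → ℂ, Summable (fun k => ‖f k‖) → ∀ lam : ℝ, 0 < lam →
      {k : ℤ | ENNReal.ofReal lam ≤ maximalFn μ m f k}.Finite ∧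
      lam * ({k : ℤ | ENNReal.ofReal lam ≤ maximalFn μ m f k}.ncard : ℝ) ≤ C * ∑' k, ‖f k‖ := by
  set D : ℝ := (480000 * m) ^ m with hD
  have hD0 : 0 < D := by
    rcases Nat.eq_zero_or_pos m with h | h
    · subst h
      rw [hD, pow_zero]
      exact one_pos
    · have : (0 : ℝ) < m := by exact_mod_cast h
      positivity
  refine ⟨8 * D, by positivity, fun μ h0 h1 hs ha f hf lam hlam => ?_⟩
  set A : ℝ := lam / (2 * D) with hA
  have hA0 : 0 < A := by positivity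
  have hfb : Pool.Agent.T6.H51.RM.Bd f :=
    ⟨∑' k, ‖f k‖, fun x => hf.le_tsum x fun _ _ => norm_nonneg _⟩
  have hsub : {k : ℤ | ENNReal.ofReal lam ≤ maximalFn μ m f k} ⊆
      {k | ¬ Pool.Agent.T6.H51.RM.Av (fun y => ‖f y‖) k A} := by
    intro k hk hav
    rw [Set.mem_ofPred_eq] at hk
    have h2 : maximalFn μ m f k ≤ ENNReal.ofReal (lam / 2) := by
      unfold maximalFn
      refine iSup₂_le fun n hn => ENNReal.ofReal_le_ofReal ?_
      have h3 := Pool.Agent.T6.H51.RM.pointwise h0 h1 hs ha f hfb m n hn k A hav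
      have h4 : (480000 * (m : ℝ)) ^ m * A = lam / 2 := by
        rw [← hD, hA]
        field_simp
      rw [h4] at h3
      rw [convPow_eq, convPow_eq]
      exact h3
    have h3 := hk.trans h2
    rw [ENNReal.ofReal_le_ofReal_iff (by positivity)] at h3
    linarith
  obtain ⟨hfin, hcard⟩ := Pool.Agent.T6.H51.RM.hl (fun y => ‖f y‖) (fun _ => norm_nonneg _) hf A hA0
  refine ⟨hfin.subset hsub, ?_⟩
  have h5 : ({k : ℤ | ENNReal.ofReal lam ≤ maximalFn μ m f k}.ncard : ℝ) ≤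
      ({k | ¬ Pool.Agent.T6.H51.RM.Av (fun y => ‖f y‖) k A}.ncard : ℝ) := by
    exact_mod_cast Set.ncard_le_ncard hsub hfin
  have h6 : lam = 2 * D * A := by
    rw [hA]
    field_simp
  calc lam * ({k : ℤ | ENNReal.ofReal lam ≤ maximalFn μ m f k}.ncard : ℝ)
      ≤ lam * ({k | ¬ Pool.Agent.T6.H51.RM.Av (fun y => ‖f y‖) k A}.ncard : ℝ) :=
        mul_le_mul_of_nonneg_left h5 hlam.le
    _ = 2 * D * (({k | ¬ Pool.Agent.T6.H51.RM.Av (fun y => ‖f y‖) k A}.ncard : ℝ) * A) := by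
        rw [h6]
        ring
    _ ≤ 2 * D * (4 * ∑' k, ‖f k‖) := mul_le_mul_of_nonneg_left hcard (by positivity)
    _ = 8 * D * ∑' k, ‖f k‖ := by ring

end Pool.Agent.Results.MP_e7950b_an.WeakTypeMaximal
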